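import Pool.Agent.N299.ND.Stm2

set_option autoImplicit false

/-! Good approximations. -/

open scoped Topology Matrix.Norms.L2Operator
open Filter

noncomputable section

namespace Pool.Agent.N901.ND

open Pool.Agent.N299 Pool.Agent.N299.ND

section

variable {B R : Type} [CStarAlgebra B] [CStarAlgebra R] {I : Submodule ℂ B}

lemma pos1 {T : B →ₗ[ℂ] R} (hT : CPI I T) {a : B} (ha : a ∈ I) : Pos (T (star a * a)) := by
  have h := hT 1 (fun _ => a) (fun _ => 1) (fun _ => ha)
  simpa using h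

lemma sym_alg {p q u v : R} (hp : star p = p) (hq : star q = q)
    (h1 : star (p + u + (v + q)) = p + u + (v + q))
    (h2 : star (p + Complex.I • u + (-(Complex.I • v) + q)) =
      p + Complex.I • u + (-(Complex.I • v) + q)) : star u = v := by
  have hA : star u + star v = u + v := by
    rw [star_add, star_add, star_add, hp, hq] at h1
    have h3 : p + (star u + star v) + q = p + (u + v) + q := by
      calc p + (star u + star v) + q = p + star u + (star v + q) := by abel
        _ = p + u + (v + q) := h1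
        _ = _ := by abel
    exact add_left_cancel (add_right_cancel h3)
  have hB : star u - star v = v - u := by
    simp only [star_add, star_neg, star_smul, hp, hq, Complex.star_def, Complex.conj_I] at h2
    have h3 : p + (-Complex.I • star u - -Complex.I • star v) + q =
        p + (Complex.I • u - Complex.I • v) + q := by
      calc p + (-Complex.I • star u - -Complex.I • star v) + q =
          p + -Complex.I • star u + (-(-Complex.I • star v) + q) := by abel
        _ = p + Complex.I • u + (-(Complex.I • v) + q) := h2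
        _ = _ := by abel
    have h4 := add_left_cancel (add_right_cancel h3)
    rw [← smul_sub, ← smul_sub] at h4
    have h5 := congrArg (fun z => Complex.I • z) h4
    simp only [smul_smul] at h5
    have e1 : Complex.I * -Complex.I = 1 := by rw [mul_neg, Complex.I_mul_I, neg_neg]
    rw [e1, Complex.I_mul_I, one_smul, neg_one_smul] at h5
    rw [h5]
    abel
  have h6 : star u + star u = v + v := by
    calc star u + star u = (star u + star v) + (star u - star v) := by abel
      _ = (u + v) + (v - u) := by rw [hA, hB]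
      _ = v + v := by abel
  rw [← two_smul ℂ, ← two_smul ℂ] at h6
  exact smul_right_injective R (two_ne_zero : (2 : ℂ) ≠ 0) h6

lemma sym {T : B →ₗ[ℂ] R} (hT : CPI I T) {a b : B} (ha : a ∈ I) (hb : b ∈ I) :
    star (T (star a * b)) = T (star b * a) := by
  have h1 := (hT 2 ![a, b] ![1, 1] (by intro i; fin_cases i <;> simpa)).sa
  have h2 := (hT 2 ![a, b] ![1, Complex.I • 1] (by intro i; fin_cases i <;> simpa)).sa
  refine sym_alg (pos1 hT ha).sa (pos1 hT hb).sa (u := T (star a * b)) (v := T (star b * a)) ?_ ?_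
  · simpa [Fin.sum_univ_two] using h1
  · simpa [Fin.sum_univ_two, smul_smul] using h2

lemma sa_of (hI : Idl I) (hAU : S_AU) {T : B →ₗ[ℂ] R} (hT : CPI I T)
    (hn : ∀ a ∈ I, ‖T a‖ ≤ ‖a‖) {x : B} (hx : x ∈ I) (hxs : star x = x) : star (T x) = T x := by
  have key : ∀ η : ℝ, 0 < η → ‖star (T x) - T x‖ ≤ 2 * η := by
    intro η hη
    obtain ⟨e, he, hep, -, hea⟩ := hAU B I hI {x} η (by simpa using hx) hη
    obtain ⟨h1, h2⟩ := hea x (Finset.mem_singleton_self x)
    have hes : star e = e := hep.sa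
    have h3 : star (T (e * x)) = T (x * e) := by
      have := sym hT he hx
      rwa [hes, hxs] at this
    have hex : e * x ∈ I := hI.mulL x hx e
    have hxe : x * e ∈ I := hI.mulR x hx e
    have e1 : star (T x) - T x = star (T (x - e * x)) + T (x * e - x) := by
      rw [map_sub, star_sub, h3, map_sub]
      abel
    rw [e1]
    calc _ ≤ ‖star (T (x - e * x))‖ + ‖T (x * e - x)‖ := norm_add_le _ _
      _ ≤ η + η := by
        rw [norm_star]
        refine add_le_add ((hn _ (I.sub_mem hx hex)).trans ?_)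
          ((hn _ (I.sub_mem hxe hx)).trans h2)
        rw [norm_sub_rev]
        exact h1
      _ = 2 * η := by ring
  have h0 : ‖star (T x) - T x‖ = 0 := by
    by_contra h
    have hp : 0 < ‖star (T x) - T x‖ := lt_of_le_of_ne (norm_nonneg _) (Ne.symm h)
    have := key (‖star (T x) - T x‖ / 4) (by positivity)
    linarith
  exact sub_eq_zero.1 (norm_eq_zero.1 h0)

end

section

variable {B : Type} [CStarAlgebra B] {I : Submodule ℂ B} {k : ℕ} {n : Fin k → ℕ}
  {ψ : ∀ j, B →ₗ[ℂ] M (n j)} {φ : ∀ j, M (n j) →ₗ[ℂ] B}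

lemma cpi_tot (h : ∀ j, CPI I (φ j ∘ₗ ψ j)) (S : Finset (Fin k)) : CPI I (tot ψ φ S) := by
  intro r a b ha
  have e : ∑ i, ∑ j, star (b i) * tot ψ φ S (star (a i) * a j) * b j =
      ∑ l ∈ S, ∑ i, ∑ j, star (b i) * (φ l ∘ₗ ψ l) (star (a i) * a j) * b j := by
    unfold tot
    simp only [LinearMap.sum_apply, Finset.mul_sum, Finset.sum_mul]
    rw [Finset.sum_comm]
    calc _ = ∑ j, ∑ l ∈ S, ∑ i, star (b i) * (φ l ∘ₗ ψ l) (star (a i) * a j) * b j :=
          Finset.sum_congr rfl fun j _ => Finset.sum_comm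
      _ = ∑ l ∈ S, ∑ j, ∑ i, star (b i) * (φ l ∘ₗ ψ l) (star (a i) * a j) * b j :=
          Finset.sum_comm
      _ = _ := Finset.sum_congr rfl fun l _ => Finset.sum_comm
  rw [e]
  exact Pos.sum _ _ fun l _ => h l r a b ha

lemma tot_single (j : Fin k) (a : B) : tot ψ φ {j} a = φ j (ψ j a) := by
  simp [tot]

lemma tot_class (hOZS : S_OZS) {m : ℕ} {c : Fin k → Fin (m + 1)} (hf : Fam I m k n c ψ φ)
    (hoz : ∀ j, OZ (φ j)) (i : Fin (m + 1)) {a : B} (ha : a ∈ I) :
    ‖tot ψ φ (Finset.univ.filter fun j => c j = i) a‖ ≤ ‖a‖ := by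
  set S := Finset.univ.filter fun j => c j = i with hS
  have h := hOZS k n B φ S (fun j _ => hoz j) (fun j hj j' hj' hne x y =>
    hf.orth j j' hne (by
      rw [hS, Finset.mem_filter] at hj hj'
      rw [hj.2, hj'.2]) x y)
  have e : tot ψ φ S a = mrg φ S (fun j : S => ψ j a) := by
    unfold tot mrg
    simp only [LinearMap.sum_apply, LinearMap.comp_apply, LinearMap.proj_apply]
    exact (Finset.sum_coe_sort S (fun j => φ j (ψ j a))).symm
  rw [e]
  refine (h.norm _).trans ?_
  exact (pi_norm_le_iff_of_nonneg (norm_nonneg a)).2 fun j => (hf.blk j).ψn a ha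

lemma tot_compl (S : Finset (Fin k)) (a : B) :
    tot ψ φ S a + tot ψ φ Sᶜ a = tot ψ φ Finset.univ a := by
  unfold tot
  simp only [LinearMap.sum_apply]
  exact Finset.sum_add_sum_compl S _

end

lemma norm_le_one {B : Type} [CStarAlgebra B] {e : B} (h : Pos e) (h1 : Pos (1 - e)) :
    ‖e‖ ≤ 1 := by
  let _ : PartialOrder B := CStarAlgebra.spectralOrder B
  let _ : StarOrderedRing B := CStarAlgebra.spectralOrderedRing B
  rw [pos_iff] at h h1
  exact (CStarAlgebra.norm_le_one_iff_of_nonneg e h).2 (sub_nonneg.1 h1)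

lemma exists_delta {C ε : ℝ} (hC : 1 ≤ C) (hε : 0 < ε) : ∃ δ : ℝ, 0 < δ ∧ δ ≤ 1 ∧ 2 * δ ≤ ε ∧
    3 * (1 + C) * Real.sqrt δ * (2 * C + 1) ≤ ε := by
  set κ : ℝ := ε / (3 * (1 + C) * (2 * C + 1)) with hκ
  have hκ0 : 0 < κ := by positivity
  refine ⟨min 1 (min (ε / 2) (κ ^ 2)), by positivity, min_le_left _ _, ?_, ?_⟩
  · have : min 1 (min (ε / 2) (κ ^ 2)) ≤ ε / 2 := (min_le_right _ _).trans (min_le_left _ _)
    linarith
  · have h1 : Real.sqrt (min 1 (min (ε / 2) (κ ^ 2))) ≤ κ := by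
      have h2 : min 1 (min (ε / 2) (κ ^ 2)) ≤ κ ^ 2 := (min_le_right _ _).trans (min_le_right _ _)
      have h3 := Real.sqrt_le_sqrt h2
      rwa [Real.sqrt_sq hκ0.le] at h3
    calc 3 * (1 + C) * Real.sqrt (min 1 (min (ε / 2) (κ ^ 2))) * (2 * C + 1) ≤
          3 * (1 + C) * κ * (2 * C + 1) := by gcongr
      _ = ε := by
          rw [hκ]
          field_simp

theorem t_APX (hOZL : S_OZL) (hOZS : S_OZS) (_hNB : S_NB) (hCPC : S_CPC) (hTI : S_TI)
    (hAU : S_AU) (hAOZ : S_AOZ) : S_APX := by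
  classical
  intro B _ I m hI hN F ε hF hε
  set C : ℝ := 1 + ∑ x ∈ F, ‖x‖ with hC
  have hC1 : 1 ≤ C := by
    have : 0 ≤ ∑ x ∈ F, ‖x‖ := by positivity
    linarith
  have hCx : ∀ x ∈ F, ‖x‖ ≤ C := by
    intro x hx
    have := Finset.single_le_sum (f := fun x => ‖x‖) (fun i _ => norm_nonneg i) hx
    linarith
  obtain ⟨δ, hδ0, hδ1, hδ2, hδ3⟩ := exists_delta hC1 hε
  set η : ℝ := 3 * (1 + C) * Real.sqrt δ with hη
  have hη0 : 0 ≤ η := by positivity
  have hηε : η ≤ ε := by nlinarith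
  obtain ⟨e, he, hep, he1, heF⟩ := hAU B I hI F δ hF hδ0
  have hes : star e = e := hep.sa
  have hen : ‖e‖ ≤ 1 := norm_le_one hep he1
  set G : Finset B := F ∪ ({e * e} ∪ (F.image (fun x => e * x) ∪ (F.image (fun x => star x * e) ∪
    (F.image (fun x => star x * x) ∪ (F.image (fun x => x * e) ∪ (F.image (fun x => e * star x) ∪
      F.image (fun x => x * star x))))))) with hG
  have hGI : ∀ a ∈ G, a ∈ I := by
    intro a ha
    rw [hG] at ha
    simp only [Finset.mem_union, Finset.mem_singleton, Finset.mem_image] at ha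
    rcases ha with h | h | ⟨x, hx, rfl⟩ | ⟨x, hx, rfl⟩ | ⟨x, hx, rfl⟩ | ⟨x, hx, rfl⟩ |
      ⟨x, hx, rfl⟩ | ⟨x, hx, rfl⟩
    · exact hF a h
    · rw [h]; exact hI.mulL e he e
    · exact hI.mulR e he x
    · exact hI.mulL e he _
    · exact hI.mulL x (hF x hx) _
    · exact hI.mulR x (hF x hx) _
    · exact hI.mulR e he _
    · exact hI.mulR x (hF x hx) _
  obtain ⟨k, n, c, ψ, φ, hfam, happ⟩ := hN G δ hGI hδ0
  have hFG : ∀ a ∈ F, a ∈ G := fun a ha => by
    rw [hG]; exact Finset.mem_union_left _ ha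
  have heG : e * e ∈ G := by
    rw [hG]; simp
  have hyG : ∀ x ∈ F, ∀ y ∈ ({e * e, e * x, star x * e, star x * x, x * e, e * star x,
      x * star x} : Set B), y ∈ G := by
    intro x hx y hy
    simp only [Set.mem_insert_iff, Set.mem_singleton_iff] at hy
    rw [hG]
    simp only [Finset.mem_union, Finset.mem_singleton, Finset.mem_image]
    rcases hy with h | h | h | h | h | h | h
    · exact Or.inr (Or.inl h)
    · exact Or.inr (Or.inr (Or.inl ⟨x, hx, h.symm⟩))
    · exact Or.inr (Or.inr (Or.inr (Or.inl ⟨x, hx, h.symm⟩)))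
    · exact Or.inr (Or.inr (Or.inr (Or.inr (Or.inl ⟨x, hx, h.symm⟩))))
    · exact Or.inr (Or.inr (Or.inr (Or.inr (Or.inr (Or.inl ⟨x, hx, h.symm⟩)))))
    · exact Or.inr (Or.inr (Or.inr (Or.inr (Or.inr (Or.inr (Or.inl ⟨x, hx, h.symm⟩))))))
    · exact Or.inr (Or.inr (Or.inr (Or.inr (Or.inr (Or.inr (Or.inr ⟨x, hx, h.symm⟩))))))
  have hoz : ∀ j, OZ (φ j) := fun j =>
    hOZL (n j) B (φ j) (hfam.blk j).φcp (hfam.blk j).φn (hfam.blk j).oz
  have hcp : ∀ j, CPI I (φ j ∘ₗ ψ j) := fun j => hCPC B I (n j) (ψ j) (φ j) (hfam.blk j)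
  have hnorm : ∀ S, SC c S → ∀ a ∈ I, ‖tot ψ φ S a‖ ≤ ‖a‖ := by
    rintro S (⟨j, rfl⟩ | ⟨i, rfl⟩) a ha
    · rw [tot_single]
      exact ((hfam.blk j).φn _).trans ((hfam.blk j).ψn a ha)
    · exact tot_class hOZS hfam hoz i ha
  have hcomm : ∀ S, SC c S → ∀ x ∈ F, ‖tot ψ φ S x - tot ψ φ S (e * e) * x‖ ≤ η ∧
      ‖tot ψ φ S x - x * tot ψ φ S (e * e)‖ ≤ η := by
    intro S hS x hx
    refine hTI B I hI (tot ψ φ S) (tot ψ φ Sᶜ) (cpi_tot hcp S) (cpi_tot hcp Sᶜ) (hnorm S hS) C δ
      e x hδ0 hδ1 he hep he1 (hF x hx) (hCx x hx) (heF x hx).1 (heF x hx).2 ?_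
    intro y hy
    rw [tot_compl]
    exact happ y (hyG x hx y hy)
  refine ⟨e, k, n, c, ψ, φ, ⟨hfam, he, hep, he1, ?_, ?_, ?_, ?_, ?_, ?_⟩⟩
  · intro a ha
    exact ⟨(heF a ha).1.trans (by linarith), (heF a ha).2.trans (by linarith)⟩
  · intro a ha
    exact (happ a (hFG a ha)).trans (by linarith)
  · exact (happ _ heG).trans (by linarith)
  · intro S hS x hx
    exact ⟨(hcomm S hS x hx).1.trans hηε, (hcomm S hS x hx).2.trans hηε⟩
  · intro j x hx y hy hxy
    have hS : SC c ({j} : Finset (Fin k)) := Or.inl ⟨j, rfl⟩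
    have h1 := hcomm _ hS x hx
    have h2 := hcomm _ hS y hy
    have h3 := hcomm _ hS (x * y) hxy
    simp only [tot_single] at h1 h2 h3
    have h4 := hAOZ B I hI (n j) (ψ j) (φ j) (hfam.blk j) (hoz j) η e x y he (hF x hx) (hF y hy)
      hen h1.1 h2.2 h3.2 h3.1
    have h5 : η * (‖x‖ + ‖y‖ + 1) ≤ ε := by
      refine le_trans ?_ hδ3
      have := hCx x hx
      have := hCx y hy
      apply mul_le_mul_of_nonneg_left _ hη0
      linarith
    exact ⟨h4.1.trans h5, h4.2.trans h5⟩
  · intro x hx hx1 hxF j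
    obtain ⟨w, hw⟩ := hx1
    have hxI := hF x hxF
    have hxs : star x = x := hx.sa
    have hψ := (hfam.blk j).ψcp
    have hψn := (hfam.blk j).ψn
    have hweI : w * e ∈ I := hI.mulL e he w
    have hexe : e * x * e ∈ I := hI.mulL e he _
    have hee : e * e ∈ I := hI.mulL e he e
    have hP : Pos (ψ j (e * e) - ψ j (e * x * e)) := by
      have h1 := pos1 hψ hweI
      have e1 : star (w * e) * (w * e) = e * e - e * x * e := by
        rw [star_mul, hes, mul_assoc, ← mul_assoc (star w) w e, ← hw]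
        noncomm_ring
      rw [e1, map_sub] at h1
      exact h1
    have hs1 : star (ψ j (e * e)) = ψ j (e * e) := by
      have := (pos1 hψ he).sa
      rwa [hes] at this
    have hs2 : star (ψ j x) = ψ j x := sa_of hI hAU hψ hψn hxI hxs
    have hY : star (ψ j (e * e) - ψ j x) = ψ j (e * e) - ψ j x := by
      rw [star_sub, hs1, hs2]
    have hd : ‖(ψ j (e * e) - ψ j (e * x * e)) - (ψ j (e * e) - ψ j x)‖ ≤ ε := by
      have e2 : (ψ j (e * e) - ψ j (e * x * e)) - (ψ j (e * e) - ψ j x) =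
          ψ j (x - e * x * e) := by
        rw [map_sub]
        abel
      rw [e2]
      refine (hψn _ (I.sub_mem hxI hexe)).trans ?_
      have e3 : x - e * x * e = (x - e * x) + e * (x - x * e) := by noncomm_ring
      rw [e3]
      calc ‖(x - e * x) + e * (x - x * e)‖ ≤ ‖x - e * x‖ + ‖e * (x - x * e)‖ := norm_add_le _ _
        _ ≤ δ + 1 * δ := by
            refine add_le_add ?_ ((norm_mul_le _ _).trans (mul_le_mul hen ?_ (norm_nonneg _)
              zero_le_one))
            · rw [norm_sub_rev]; exact (heF x hxF).1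
            · rw [norm_sub_rev]; exact (heF x hxF).2
        _ ≤ ε := by linarith
    have h6 := pos_perturb hP hY hd
    have e4 : ψ j (e * e) + (ε : ℂ) • 1 - ψ j x = ψ j (e * e) - ψ j x + (ε : ℂ) • (1 : M (n j)) := by
      abel
    rw [e4]
    exact h6

end Pool.Agent.N901.ND
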